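import Pool.Agent.K7.H66.TD.Defs2

/-!
# JOB TAIL: the two binomial estimates
-/

set_option autoImplicit false

namespace Pool.Agent.K7.H15.TD

open Finset Pool.Agent.K7.H66.TD

theorem sum_exp (k : ℕ) (u : ℝ) :
    ∑ j ∈ range (k + 1), (k.choose j : ℝ) * Real.exp (u * (2 * (j : ℝ) - k)) = (2 * Real.cosh u) ^ k := by
  have h : (2 * Real.cosh u) = Real.exp u + Real.exp (-u) := by rw [Real.cosh_eq]; ring
  rw [h, add_pow]
  refine sum_congr rfl fun j hj => ?_
  have hj' : j ≤ k := by simpa [Nat.lt_succ_iff] using hj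
  rw [← Real.exp_nat_mul, ← Real.exp_nat_mul, ← Real.exp_add, mul_comm, Nat.cast_sub hj']
  congr 2
  ring

theorem tail : StTail := by
  intro k l hl
  rcases Nat.eq_zero_or_pos k with rfl | hk
  · have h1 : ∑ j ∈ (range (0 + 1)).filter (fun j : ℕ => l ≤ |2 * (j : ℝ) - (0 : ℕ)|), ((0 : ℕ).choose j : ℝ)
        ≤ ∑ j ∈ range (0 + 1), ((0 : ℕ).choose j : ℝ) :=
      sum_le_sum_of_subset_of_nonneg (filter_subset _ _) (fun _ _ _ => by positivity)
    refine h1.trans ?_
    simp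
  have hk0 : (0 : ℝ) < k := by exact_mod_cast hk
  set u : ℝ := l / k with hu
  have hu0 : 0 ≤ u := by positivity
  have key : ∀ j ∈ (range (k + 1)).filter (fun j : ℕ => l ≤ |2 * (j : ℝ) - k|), (k.choose j : ℝ) ≤
      (k.choose j : ℝ) * ((Real.exp (u * (2 * (j : ℝ) - k)) + Real.exp (-u * (2 * (j : ℝ) - k))) * Real.exp (-(u * l))) := by
    intro j hj
    have hj2 := (mem_filter.1 hj).2
    have h1 : (1 : ℝ) ≤ (Real.exp (u * (2 * (j : ℝ) - k)) + Real.exp (-u * (2 * (j : ℝ) - k))) * Real.exp (-(u * l)) := by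
      rw [add_mul, ← Real.exp_add, ← Real.exp_add]
      rcases le_abs.1 hj2 with h | h
      · have : (1 : ℝ) ≤ Real.exp (u * (2 * (j : ℝ) - k) + -(u * l)) := by
          apply Real.one_le_exp
          nlinarith
        have := Real.exp_pos (-u * (2 * (j : ℝ) - k) + -(u * l))
        linarith
      · have : (1 : ℝ) ≤ Real.exp (-u * (2 * (j : ℝ) - k) + -(u * l)) := by
          apply Real.one_le_exp
          nlinarith
        have := Real.exp_pos (u * (2 * (j : ℝ) - k) + -(u * l))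
        linarith
    have h0 : (0 : ℝ) ≤ (k.choose j : ℝ) := by positivity
    nlinarith
  have h2 : ∑ j ∈ (range (k + 1)).filter (fun j : ℕ => l ≤ |2 * (j : ℝ) - k|), (k.choose j : ℝ)
      ≤ ∑ j ∈ range (k + 1), (k.choose j : ℝ) *
        ((Real.exp (u * (2 * (j : ℝ) - k)) + Real.exp (-u * (2 * (j : ℝ) - k))) * Real.exp (-(u * l))) :=
    (sum_le_sum key).trans (sum_le_sum_of_subset_of_nonneg (filter_subset _ _) (fun _ _ _ => by positivity))
  refine h2.trans ?_
  have h3 : ∑ j ∈ range (k + 1), (k.choose j : ℝ) *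
        ((Real.exp (u * (2 * (j : ℝ) - k)) + Real.exp (-u * (2 * (j : ℝ) - k))) * Real.exp (-(u * l)))
      = 2 * (2 * Real.cosh u) ^ k * Real.exp (-(u * l)) := by
    have e1 := sum_exp k u
    have e2 := sum_exp k (-u)
    rw [Real.cosh_neg] at e2
    rw [two_mul ((2 * Real.cosh u) ^ k)]
    nth_rewrite 1 [← e1]
    rw [← e2, ← sum_add_distrib, sum_mul]
    refine sum_congr rfl fun j _ => ?_
    ring
  rw [h3, mul_pow, mul_assoc, mul_assoc, mul_assoc]
  refine mul_le_mul_of_nonneg_left (mul_le_mul_of_nonneg_left ?_ (by positivity)) (by norm_num)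
  have h4 : Real.cosh u ^ k ≤ Real.exp (k * (u ^ 2 / 2)) := by
    rw [Real.exp_nat_mul]
    exact pow_le_pow_left₀ (Real.cosh_pos u).le (Real.cosh_le_exp_half_sq u) k
  refine (mul_le_mul_of_nonneg_right h4 (Real.exp_pos _).le).trans ?_
  rw [← Real.exp_add]
  apply Real.exp_le_exp.2
  rw [hu]
  apply le_of_eq
  field_simp
  ring

theorem centralBinom_sq (n : ℕ) : (Nat.centralBinom n) ^ 2 * (2 * n + 1) ≤ 16 ^ n := by
  induction n with
  | zero => simp
  | succ n ih =>
    have h := Nat.succ_mul_centralBinom_succ n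
    have h1 : (n + 1) ^ 2 * ((Nat.centralBinom (n + 1)) ^ 2 * (2 * (n + 1) + 1)) ≤ (n + 1) ^ 2 * 16 ^ (n + 1) := by
      calc (n + 1) ^ 2 * ((Nat.centralBinom (n + 1)) ^ 2 * (2 * (n + 1) + 1))
          = ((n + 1) * Nat.centralBinom (n + 1)) ^ 2 * (2 * n + 3) := by ring
        _ = (2 * (2 * n + 1) * Nat.centralBinom n) ^ 2 * (2 * n + 3) := by rw [h]
        _ = (Nat.centralBinom n ^ 2 * (2 * n + 1)) * (4 * ((2 * n + 1) * (2 * n + 3))) := by ring
        _ ≤ 16 ^ n * (4 * ((2 * n + 2) * (2 * n + 2))) := by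
            apply Nat.mul_le_mul ih
            nlinarith
        _ = (n + 1) ^ 2 * 16 ^ (n + 1) := by ring
    exact Nat.le_of_mul_le_mul_left h1 (by positivity)

theorem centralBinom_le (n : ℕ) : (Nat.centralBinom n : ℝ) ≤ 2 ^ (2 * n) / Real.sqrt (2 * n + 1) := by
  have h : ((Nat.centralBinom n : ℝ)) ^ 2 * (2 * n + 1) ≤ 16 ^ n := by exact_mod_cast centralBinom_sq n
  have hs : 0 < Real.sqrt (2 * n + 1) := Real.sqrt_pos.2 (by positivity)
  rw [le_div_iff₀ hs]
  have h2 : ((Nat.centralBinom n : ℝ) * Real.sqrt (2 * n + 1)) ^ 2 ≤ (2 ^ (2 * n)) ^ 2 := by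
    rw [mul_pow, Real.sq_sqrt (by positivity)]
    refine h.trans (le_of_eq ?_)
    rw [← pow_mul, show 2 * n * 2 = 4 * n by ring, pow_mul]
    norm_num
  exact (pow_le_pow_iff_left₀ (by positivity) (by positivity) (by norm_num)).1 h2

theorem cen' (k j : ℕ) (hk : 1 ≤ k) : (k.choose j : ℝ) ≤ 2 ^ k / Real.sqrt k := by
  have hk0 : (0 : ℝ) < k := by exact_mod_cast hk
  have hs : 0 < Real.sqrt k := Real.sqrt_pos.2 hk0
  rcases Nat.even_or_odd' k with ⟨n, rfl | rfl⟩
  · have h1 : ((2 * n).choose j : ℝ) ≤ Nat.centralBinom n := by exact_mod_cast Nat.choose_le_centralBinom j n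
    refine h1.trans ((centralBinom_le n).trans ?_)
    apply div_le_div_of_nonneg_left (by positivity) hs
    apply Real.sqrt_le_sqrt
    push_cast
    linarith
  · have h1 : (2 * n + 1).choose j ≤ (2 * n + 1).choose n := by
      have := Nat.choose_le_middle j (2 * n + 1)
      rwa [show (2 * n + 1) / 2 = n by omega] at this
    have h2 : 2 * (2 * n + 1).choose n = Nat.centralBinom (n + 1) := by
      rw [Nat.centralBinom_eq_two_mul_choose, show 2 * (n + 1) = (2 * n + 1) + 1 by ring, Nat.choose_succ_succ,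
        two_mul]
      congr 1
      rw [← Nat.choose_symm_half]
    have h3 : (2 : ℝ) * ((2 * n + 1).choose j : ℝ) ≤ Nat.centralBinom (n + 1) := by
      rw [← h2]; push_cast
      have : ((2 * n + 1).choose j : ℝ) ≤ ((2 * n + 1).choose n : ℝ) := by exact_mod_cast h1
      linarith
    have h4 := centralBinom_le (n + 1)
    have h5 : (2 : ℝ) ^ (2 * (n + 1)) / Real.sqrt (2 * ((n + 1 : ℕ) : ℝ) + 1) ≤ 2 * (2 ^ (2 * n + 1) / Real.sqrt ((2 * n + 1 : ℕ) : ℝ)) := by
      have : (2 : ℝ) * (2 ^ (2 * n + 1) / Real.sqrt ((2 * n + 1 : ℕ) : ℝ)) = 2 ^ (2 * (n + 1)) / Real.sqrt ((2 * n + 1 : ℕ) : ℝ) := by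
        ring
      rw [this]
      apply div_le_div_of_nonneg_left (by positivity) hs
      apply Real.sqrt_le_sqrt
      push_cast
      linarith
    linarith

theorem cen : StCen := by
  intro k j hk
  refine (cen' k j hk).trans ?_
  have hk0 : (0 : ℝ) < k := by exact_mod_cast hk
  have hs : 0 < Real.sqrt k := Real.sqrt_pos.2 hk0
  apply div_le_div_of_nonneg_right _ hs.le
  have : (0 : ℝ) < 2 ^ k := by positivity
  linarith

end Pool.Agent.K7.H15.TD
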